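import Pool.Agent.Work.MP_b43138_nt.Compute
import Pool.Agent.Work.MP_b43138_nt.Exist

/-!
`v_κ / κ` is not increasing: `v_150 / 150 < v_80 / 80`.
-/

namespace Pool.Agent.Results.MP_b43138_nt.NotMonotone

open Pool.Agent.Work.MP_b43138_nt Set

lemma facts80 {σ : ℝ → ℝ} (h : IsSigma 80 σ) :
    IsSigma (((79 : ℕ) : ℝ) + 1) σ ∧ 1 < eta (((79 : ℕ) : ℝ) + 1) σ (19592 / 100) ∧
      eta (((79 : ℕ) : ℝ) + 1) σ 200 < 1 := by
  have e : ((79 : ℕ) : ℝ) + 1 = 80 := by norm_num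
  have h' : IsSigma (((79 : ℕ) : ℝ) + 1) σ := e ▸ h
  have hT : Tail (((80 : ℚ) : ℝ)) (fun u => 1 - ext0 σ u) := by
    have := (h.good (by norm_num)).tail (by norm_num)
    simpa using this
  have hs := (momL_spec (k := 80) (by norm_num) hT 80).2
  have hc := check80
  rw [Bool.and_eq_true, lowOK, upOK, decide_eq_true_eq, decide_eq_true_eq] at hc
  obtain ⟨c1, c2⟩ := hc
  have c1 := (Rat.cast_lt (K := ℝ)).2 c1
  have c2 := (Rat.cast_lt (K := ℝ)).2 c2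
  simp only [Rat.cast_div, Rat.cast_add, Rat.cast_mul, Rat.cast_natCast, Rat.cast_sub,
    Rat.cast_pow, Rat.cast_ofNat, Rat.cast_one] at c1 c2
  rw [hs _ (by norm_num), hs _ (by norm_num)] at c1 c2
  have hm := fun x hx => hT.markov (by norm_num) 32 (x := x) hx
  have e32 : ((32 : ℕ) : ℝ) + 1 = 33 := by norm_num
  rw [e32] at hm
  refine ⟨h', ?_, eta_lt_one h' 37 (by norm_num) c2⟩
  refine one_lt_eta (m := 33) (d := 46) h' (by norm_num) ?_ hm c1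
  have := hT.nonneg 0
  exact le_trans (by simpa using this) (hm 0 le_rfl)

lemma facts150 {σ : ℝ → ℝ} (h : IsSigma 150 σ) :
    IsSigma (((149 : ℕ) : ℝ) + 1) σ ∧ 1 < eta (((149 : ℕ) : ℝ) + 1) σ 2 ∧
      eta (((149 : ℕ) : ℝ) + 1) σ (36734 / 100) < 1 := by
  have e : ((149 : ℕ) : ℝ) + 1 = 150 := by norm_num
  have h' : IsSigma (((149 : ℕ) : ℝ) + 1) σ := e ▸ h
  have hT : Tail (((150 : ℚ) : ℝ)) (fun u => 1 - ext0 σ u) := by
    have := (h.good (by norm_num)).tail (by norm_num)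
    simpa using this
  have hs := (momL_spec (k := 150) (by norm_num) hT 150).2
  have hc := check150
  rw [Bool.and_eq_true, lowOK, upOK, decide_eq_true_eq, decide_eq_true_eq] at hc
  obtain ⟨c1, c2⟩ := hc
  have c1 := (Rat.cast_lt (K := ℝ)).2 c1
  have c2 := (Rat.cast_lt (K := ℝ)).2 c2
  simp only [Rat.cast_div, Rat.cast_add, Rat.cast_mul, Rat.cast_natCast, Rat.cast_sub,
    Rat.cast_pow, Rat.cast_ofNat, Rat.cast_one] at c1 c2
  rw [hs _ (by norm_num)] at c1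
  rw [hs _ (by norm_num), hs _ (by norm_num)] at c2
  refine ⟨h', ?_, eta_lt_one h' 70 (by norm_num) c2⟩
  refine one_lt_eta (m := 0) (d := 149) h' (by norm_num) zero_le_one (fun x _ => ?_) c1
  simpa using hT.le_one x

lemma exists_root {j : ℕ} {σ : ℝ → ℝ} (h : IsSigma ((j : ℝ) + 1) σ) {a b : ℝ} (ha : 1 < a)
    (hab : a ≤ b) (h1 : 1 < eta ((j : ℝ) + 1) σ a) (h2 : eta ((j : ℝ) + 1) σ b < 1) :
    ∃ v, 1 < v ∧ eta ((j : ℝ) + 1) σ v = 1 := by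
  obtain ⟨v, hv, hv1⟩ := intermediate_value_Icc' hab (eta_contOn h ha hab) ⟨h2.le, h1.le⟩
  exact ⟨v, ha.trans_le hv.1, hv1⟩

theorem result :
    ∃ κ₁ κ₂ : ℝ, 1 ≤ κ₁ ∧ κ₁ < κ₂ ∧
      (∃ σ₁ v₁, IsSigma κ₁ σ₁ ∧ 1 < v₁ ∧ eta κ₁ σ₁ v₁ = 1) ∧
      (∃ σ₂ v₂, IsSigma κ₂ σ₂ ∧ 1 < v₂ ∧ eta κ₂ σ₂ v₂ = 1) ∧
      ∀ σ₁ v₁ σ₂ v₂, IsSigma κ₁ σ₁ → 1 < v₁ → eta κ₁ σ₁ v₁ = 1 →
        IsSigma κ₂ σ₂ → 1 < v₂ → eta κ₂ σ₂ v₂ = 1 → v₂ / κ₂ < v₁ / κ₁ := by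
  have e1 : ((79 : ℕ) : ℝ) + 1 = 80 := by norm_num
  have e2 : ((149 : ℕ) : ℝ) + 1 = 150 := by norm_num
  refine ⟨80, 150, by norm_num, by norm_num, ?_, ?_, ?_⟩
  · obtain ⟨σ, h⟩ := exists_isSigma (κ := 80) (by norm_num)
    obtain ⟨h', h1, h2⟩ := facts80 h
    obtain ⟨v, hv, hv1⟩ := exists_root h' (by norm_num) (by norm_num) h1 h2
    exact ⟨σ, v, h, hv, e1 ▸ hv1⟩
  · obtain ⟨σ, h⟩ := exists_isSigma (κ := 150) (by norm_num)
    obtain ⟨h', h1, h2⟩ := facts150 h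
    obtain ⟨v, hv, hv1⟩ := exists_root h' (by norm_num) (by norm_num) h1 h2
    exact ⟨σ, v, h, hv, e2 ▸ hv1⟩
  · intro σ₁ v₁ σ₂ v₂ s1 a1 b1 s2 a2 b2
    obtain ⟨h', h1, -⟩ := facts80 s1
    obtain ⟨k', -, k2⟩ := facts150 s2
    rw [← e1] at b1
    rw [← e2] at b2
    have l1 : 19592 / 100 < v₁ := by
      by_contra hc
      have := eta_anti h' a1 (not_lt.1 hc)
      rw [b1] at this
      exact absurd h1 (not_lt.2 this)
    have l2 : v₂ < 36734 / 100 := by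
      by_contra hc
      have := eta_anti k' (by norm_num) (not_lt.1 hc)
      rw [b2] at this
      exact absurd k2 (not_lt.2 this)
    linarith

end Pool.Agent.Results.MP_b43138_nt.NotMonotone
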